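import Pool.Agent.Run7.h481.RG.Iface

set_option autoImplicit false

/-! Piece RN of the project RG (MP_e3daee_pr). -/

namespace Run7.h648.RG

open MeasureTheory ProbabilityTheory Set Filter H481.RG
open scoped NNReal ENNReal Topology

lemma X_meas {Ω : Type} [MeasurableSpace Ω] {P : Measure Ω} {W : ℝ≥0 → Ω → ℝ}
    {V : Ω → U} {F : U → ℝ → ℝ} (hS : Setup Ω P W V) (hF : IsCdf F) (t : ℝ≥0) :
    Measurable (X F W V t) := by
  unfold X
  exact (hS.measW t).add ((hF.meas t).comp hS.measV)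

lemma grid_le {Ω : Type} [mΩ : MeasurableSpace Ω] {P : Measure Ω} {W : ℝ≥0 → Ω → ℝ}
    {V : Ω → U} {F : U → ℝ → ℝ} (hS : Setup Ω P W V) (hF : IsCdf F) (m k : ℕ) :
    grid F W V m k ≤ mΩ := by
  unfold grid
  exact iSup_le fun j => iSup_le fun _ => (X_meas hS hF _).comap_le

lemma pred_le {Ω : Type} [mΩ : MeasurableSpace Ω] {P : Measure Ω} {W : ℝ≥0 → Ω → ℝ}
    {V : Ω → U} {F : U → ℝ → ℝ} (hS : Setup Ω P W V) (hF : IsCdf F) :
    Pred F W V ≤ (inferInstance : MeasurableSpace (Ω × ℝ)) := by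
  unfold Pred
  refine MeasurableSpace.generateFrom_le ?_
  rintro D ⟨m, k, B, -, hB, rfl⟩
  exact (grid_le hS hF m k B hB).prod measurableSet_Ioc

theorem t_RN : S_KER → S_AC → S_RN := by
  intro hKER hAC Ω _ P W V F hS hF hDV
  obtain ⟨κ, hκ, hκI⟩ := hKER F hF
  have hP := hS.prob
  have hm := pred_le hS hF
  let lam : Measure (Ω × ℝ) := (P ⊗ₘ (κ.comap V hS.measV)).restrict (univ ×ˢ Ioc 0 1)
  let mu : Measure (Ω × ℝ) := P.prod (volume.restrict (Ioc (0 : ℝ) 1))
  have hlf : IsFiniteMeasure lam := by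
    have : IsFiniteKernel (κ.comap V hS.measV) := inferInstance
    show IsFiniteMeasure ((P ⊗ₘ (κ.comap V hS.measV)).restrict (univ ×ˢ Ioc 0 1))
    infer_instance
  have hmf : IsFiniteMeasure mu := by
    show IsFiniteMeasure (P.prod (volume.restrict (Ioc (0 : ℝ) 1)))
    infer_instance
  have hlf' : IsFiniteMeasure (lam.trim hm) := isFiniteMeasure_trim hm
  have hmf' : IsFiniteMeasure (mu.trim hm) := isFiniteMeasure_trim hm
  have hac : lam.trim hm ≪ mu.trim hm := by
    refine Measure.AbsolutelyContinuous.mk fun D hD h0 => ?_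
    rw [trim_measurableSet_eq hm hD] at h0 ⊢
    exact le_antisymm ((Measure.restrict_le_self _).trans
      (hAC Ω P W V F κ hS.measV hS hF hDV hκ hκI D hD h0).le) zero_le
  let th : Ω × ℝ → ℝ := fun p => ((lam.trim hm).rnDeriv (mu.trim hm) p).toReal
  have hthm : Measurable[Pred F W V] th :=
    (Measure.measurable_rnDeriv (lam.trim hm) (mu.trim hm)).ennreal_toReal
  have hthi' : Integrable[Pred F W V] th (mu.trim hm) := Measure.integrable_toReal_rnDeriv
  have hthi : Integrable th mu := integrable_of_integrable_trim hm hthi'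
  refine ⟨fun ω s => th (ω, s), fun ω s => ENNReal.toReal_nonneg, hthm, hthi, ?_⟩
  intro m m' j j' B hst ht1 hD hB
  set s : ℝ := (j : ℝ) / 3 ^ m with hs
  set t : ℝ := (j' : ℝ) / 3 ^ m' with ht
  have hs0 : 0 ≤ s := by positivity
  have hIoc : Ioc s t ⊆ Ioc (0 : ℝ) 1 := Ioc_subset_Ioc hs0 ht1
  -- the right-hand side
  have h1 : ∫ ω in B, (∫ x in s..t, th (ω, x)) ∂P = ∫ p in B ×ˢ Ioc s t, th p ∂mu := by
    rw [setIntegral_prod _ hthi.integrableOn]
    refine setIntegral_congr_fun hB fun ω _ => ?_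
    rw [intervalIntegral.integral_of_le hst, Measure.restrict_restrict measurableSet_Ioc,
      inter_eq_left.2 hIoc]
  have h2 : ∫ p in B ×ˢ Ioc s t, th p ∂mu = (lam.trim hm).real (B ×ˢ Ioc s t) := by
    rw [setIntegral_trim hm hthm.stronglyMeasurable hD]
    exact Measure.setIntegral_toReal_rnDeriv hac _
  have h3 : (lam.trim hm) (B ×ˢ Ioc s t)
      = ∫⁻ ω in B, ENNReal.ofReal (F (V ω) t - F (V ω) s) ∂P := by
    rw [trim_measurableSet_eq hm hD]
    have hmD : MeasurableSet (B ×ˢ Ioc s t) := hB.prod measurableSet_Ioc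
    rw [Measure.restrict_apply hmD, inter_eq_left.2 (prod_mono (subset_univ B) hIoc),
      Measure.compProd_apply_prod hB measurableSet_Ioc]
    refine setLIntegral_congr_fun hB fun ω _ => ?_
    rw [Kernel.comap_apply, hκI _ _ _ hst]
  have h4 : ∫ ω in B, (F (V ω) t - F (V ω) s) ∂P
      = (∫⁻ ω in B, ENNReal.ofReal (F (V ω) t - F (V ω) s) ∂P).toReal := by
    refine integral_eq_lintegral_of_nonneg_ae (Eventually.of_forall fun ω => ?_) ?_
    · exact sub_nonneg.2 (hF.mono (V ω) hst)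
    · exact (((hF.meas t).comp hS.measV).sub ((hF.meas s).comp hS.measV)).aestronglyMeasurable
  rw [h4, ← h3]
  exact (h1.trans h2).symm

end Run7.h648.RG
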